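import Pool.Agent.helper58.CRO.SpecI

open scoped Manifold ContDiff Topology ENNReal
open MeasureTheory Set

noncomputable section

namespace Pool.Agent.CRO

theorem IBT_aux {α : Type*} [MeasurableSpace α] (μ : Measure α) (f : α → ℝ) (hf : Measurable f)
    (b : ℝ) :
    ∫⁻ z, ENNReal.ofReal (f z) ∂μ + ∫⁻ z, ENNReal.ofReal (-f z) ∂μ ≤
      ENNReal.ofReal b * μ univ +
        (∫⁻ z, ENNReal.ofReal (f z - b) ∂μ + ∫⁻ z, ENNReal.ofReal (-f z - b) ∂μ) := by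
  have hm1 : Measurable fun z => ENNReal.ofReal (f z) := hf.ennreal_ofReal
  have hm2 : Measurable fun z => ENNReal.ofReal (f z - b) := (hf.sub_const b).ennreal_ofReal
  rw [← lintegral_add_left hm1, ← lintegral_add_left hm2, ← lintegral_const,
    ← lintegral_add_left measurable_const]
  refine lintegral_mono fun z => ?_
  show ENNReal.ofReal (f z) + ENNReal.ofReal (-f z) ≤
    ENNReal.ofReal b + (ENNReal.ofReal (f z - b) + ENNReal.ofReal (-f z - b))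
  rcases le_total 0 (f z) with h | h
  · rw [ENNReal.ofReal_of_nonpos (show -f z ≤ 0 by linarith), add_zero]
    calc ENNReal.ofReal (f z) = ENNReal.ofReal (b + (f z - b)) := by ring_nf
      _ ≤ ENNReal.ofReal b + ENNReal.ofReal (f z - b) := ENNReal.ofReal_add_le
      _ ≤ _ := by gcongr; exact le_self_add
  · rw [ENNReal.ofReal_of_nonpos h, zero_add]
    calc ENNReal.ofReal (-f z) = ENNReal.ofReal (b + (-f z - b)) := by ring_nf
      _ ≤ ENNReal.ofReal b + ENNReal.ofReal (-f z - b) := ENNReal.ofReal_add_le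
      _ ≤ _ := by gcongr; exact le_add_self

theorem IBT (h1 : IFX_stmt) (h2 : ICP_stmt) (h3 : IME_stmt) : IBT_stmt := by
  intro n r0 𝒢 L R e r1 H Φ hS θ c C hθ hc hcC ρ ρa ρb hρ hρa hab hbR b hb0 hb1
  obtain ⟨i1, i2⟩ := h1 n r0 𝒢 L R e r1 H Φ hS θ c C hθ hc hcC ρ ρa ρb hρ hρa hab hbR
  have hρb : ρb < r0 := by
    have h4 := hS.Rr
    have h5 := hS.fl.r1lt
    linarith
  obtain ⟨c1, c2⟩ := (h2 n r0 𝒢 e ρa ρb hS.n2 hS.epos hS.elt (by linarith) hab hρb).2 b hb0 hb1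
  obtain ⟨-, hSLo, -, hrcm, hHit, -, -⟩ := h3 n r0 𝒢 L R e r1 H Φ hS
  have hsh : MeasurableSet {z : PS n | ρa ≤ ‖z.1‖ ∧ ‖z.1‖ < ρb} := by
    have hm : Measurable fun z : PS n => ‖z.1‖ := measurable_fst.norm
    exact (measurableSet_le measurable_const hm).inter (measurableSet_lt hm measurable_const)
  have hEm : MeasurableSet (SL 𝒢 e R ∩ Hit Φ R ρ ∩ {z : PS n | ρa ≤ ‖z.1‖ ∧ ‖z.1‖ < ρb}) :=
    (hSLo.measurableSet.inter (hHit ρ).measurableSet).inter hsh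
  have hcg : ∀ F : ℝ → ℝ≥0∞,
      ∫⁻ z in SL 𝒢 e R ∩ Hit Φ R ρ ∩ {z : PS n | ρa ≤ ‖z.1‖ ∧ ‖z.1‖ < ρb}, F (rc 𝒢 z) =
      ∫⁻ z in SL 𝒢 e R ∩ Hit Φ R ρ ∩ {z : PS n | ρa ≤ ‖z.1‖ ∧ ‖z.1‖ < ρb},
        F ((SL 𝒢 e R).indicator (rc 𝒢) z) := by
    intro F
    refine setLIntegral_congr_fun hEm fun z hz => ?_
    show F (rc 𝒢 z) = F ((SL 𝒢 e R).indicator (rc 𝒢) z)
    rw [indicator_of_mem hz.1.1]
  have key := IBT_aux
    (volume.restrict (SL 𝒢 e R ∩ Hit Φ R ρ ∩ {z : PS n | ρa ≤ ‖z.1‖ ∧ ‖z.1‖ < ρb}))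
    ((SL 𝒢 e R).indicator (rc 𝒢)) hrcm b
  rw [← hcg (fun t => ENNReal.ofReal t), ← hcg (fun t => ENNReal.ofReal (-t)),
    ← hcg (fun t => ENNReal.ofReal (t - b)), ← hcg (fun t => ENNReal.ofReal (-t - b)),
    Measure.restrict_apply_univ] at key
  have hsub : SL 𝒢 e R ∩ Hit Φ R ρ ∩ {z : PS n | ρa ≤ ‖z.1‖ ∧ ‖z.1‖ < ρb} ⊆
      {z : PS n | (ρa ≤ ‖z.1‖ ∧ ‖z.1‖ < ρb) ∧ e < sp 𝒢 z ∧ sp 𝒢 z < 1} :=
    fun z hz => ⟨hz.2, hz.1.1.2.1, hz.1.1.2.2⟩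
  have k1 := lintegral_mono_set (μ := volume) (f := fun z : PS n => ENNReal.ofReal (rc 𝒢 z - b))
    hsub
  have k2 := lintegral_mono_set (μ := volume) (f := fun z : PS n => ENNReal.ofReal (-rc 𝒢 z - b))
    hsub
  rw [c1] at k1
  rw [c2] at k2
  rw [two_mul, two_mul]
  exact (add_le_add i1 i2).trans (key.trans (add_le_add le_rfl (add_le_add k1 k2)))

end Pool.Agent.CRO
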