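import Pool.Agent.helper58.CRO.SpecI

open scoped Manifold ContDiff Topology ENNReal
open MeasureTheory Set

noncomputable section

namespace Pool.Agent.CRO

/-- first exit time of a continuous function -/
theorem IWN_exit (g : ℝ → ℝ) (hg : Continuous g) (R : ℝ) (h0 : g 0 < R)
    (hne : ∃ u, 0 ≤ u ∧ R ≤ g u) :
    ∃ β, 0 < β ∧ g β = R ∧ ∀ u, 0 ≤ u → u < β → g u < R := by
  have hcl : IsClosed {u : ℝ | 0 ≤ u ∧ R ≤ g u} :=
    (isClosed_le continuous_const continuous_id).inter (isClosed_le continuous_const hg)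
  have hbd : BddBelow {u : ℝ | 0 ≤ u ∧ R ≤ g u} := ⟨0, fun u hu => hu.1⟩
  have hmem := hcl.csInf_mem hne hbd
  obtain ⟨β, hβ⟩ : ∃ β, β = sInf {u : ℝ | 0 ≤ u ∧ R ≤ g u} := ⟨_, rfl⟩
  rw [← hβ] at hmem
  have hlt : ∀ u, 0 ≤ u → u < β → g u < R := by
    intro u hu hub
    by_contra hc
    have : β ≤ u := by
      rw [hβ]
      exact csInf_le hbd ⟨hu, not_lt.1 hc⟩
    linarith
  have hβ0 : 0 < β := by
    rcases lt_or_eq_of_le hmem.1 with h | h
    · exact h
    · rw [← h] at hmem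
      linarith [hmem.2]
  refine ⟨β, hβ0, le_antisymm ?_ hmem.2, hlt⟩
  have hI : Ioo 0 β ∈ 𝓝[<] β := Ioo_mem_nhdsLT hβ0
  have ht : Filter.Tendsto g (𝓝[<] β) (𝓝 (g β)) := hg.continuousAt.mono_left nhdsWithin_le_nhds
  refine le_of_tendsto ht ?_
  filter_upwards [hI] with u hu
  exact (hlt u hu.1.le hu.2).le

theorem IWN (h1 : HVA_stmt) (h2 : NRG_stmt) : IWN_stmt := by
  intro n r0 𝒢 L R e r1 H Φ hS z hz
  obtain ⟨hz1, hze, hz2⟩ := hz
  have hn2 : nrm2 𝒢 z < 1 := by
    have h := (Real.sqrt_lt' (by norm_num : (0 : ℝ) < 1)).1 (show Real.sqrt (nrm2 𝒢 z) < 1 from hz2)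
    simpa using h
  have hcont : Continuous fun u : ℝ => Φ u z :=
    hS.fl.cont.comp (continuous_id.prodMk continuous_const)
  have hg : Continuous fun u : ℝ => ‖(Φ u z).1‖ := (continuous_fst.comp hcont).norm
  have h0 : ‖(Φ 0 z).1‖ < R := by rw [hS.fl.zero]; exact hz1
  have hRr := hS.Rr
  have hr10 := hS.fl.r1lt
  have hepos := hS.epos
  have hRL := hS.RL
  have hRpos := hS.Rpos
  have hnr : ∀ u, (∀ s ∈ uIcc 0 u, ‖(Φ s z).1‖ ≤ R) → nrm2 𝒢 (Φ u z) = nrm2 𝒢 z := by
    intro u hu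
    exact h2 n r0 r1 𝒢 H Φ hS.fl z u hn2 fun s hs => lt_of_le_of_lt (hu s hs) hRr
  -- the basic bound for times smaller than L
  have hB : ∀ u1 u2, u1 ≤ 0 → 0 ≤ u2 → (∀ s, u1 ≤ s → s ≤ u2 → ‖(Φ s z).1‖ < R) →
      u2 - u1 < L → sp 𝒢 z * (u2 - u1) < 2 * R := by
    intro u1 u2 hu1 hu2 hst hlt
    have hsub : ∀ u, u1 ≤ u → u ≤ u2 → nrm2 𝒢 (Φ u z) = nrm2 𝒢 z := by
      intro u hu hu'
      refine hnr u fun s hs => ?_
      rw [mem_uIcc] at hs
      rcases hs with hs | hs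
      · exact (hst s (by linarith [hs.1]) (by linarith [hs.2])).le
      · exact (hst s (by linarith [hs.1]) (by linarith [hs.2])).le
    have hc0 : nrm2 𝒢 (Φ u1 z) = nrm2 𝒢 z := hsub u1 le_rfl (by linarith)
    have key := hS.ln (fun t => Φ (u1 + t) z) (u2 - u1) R (by linarith) hlt hRpos
      (by linarith) (by
        show nrm2 𝒢 (Φ (u1 + 0) z) < 1
        rw [add_zero, hc0]
        exact hn2) (by
        intro t ht
        have ha : u1 ≤ u1 + t := by linarith [ht.1]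
        have hb : u1 + t ≤ u2 := by linarith [ht.2]
        refine ⟨hst _ ha hb, ?_⟩
        show HasDerivAt (fun t => Φ (u1 + t) z) (hvf (ham 𝒢) (Φ (u1 + t) z)) t
        have hv := (h1 n r0 r1 𝒢 H Φ hS.fl (Φ (u1 + t) z)
          (lt_trans (hst _ ha hb) hRr) (by rw [hsub _ ha hb]; linarith)).2.1
        rw [← hv]
        exact HasDerivAt.comp_const_add u1 t (hS.fl.ode z (u1 + t)))
    have hsp : sp 𝒢 (Φ (u1 + 0) z) = sp 𝒢 z := by
      show Real.sqrt (nrm2 𝒢 (Φ (u1 + 0) z)) = Real.sqrt (nrm2 𝒢 z)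
      rw [add_zero, hc0]
    have key' : sp 𝒢 (Φ (u1 + 0) z) * (u2 - u1) < 2 * R := key
    rw [hsp] at key'
    exact key'
  have hC : ∀ u1 u2, u1 ≤ 0 → 0 ≤ u2 → (∀ s, u1 ≤ s → s ≤ u2 → ‖(Φ s z).1‖ < R) →
      u2 - u1 < L := by
    intro u1 u2 hu1 hu2 hst
    by_contra hc
    have hc' : L ≤ u2 - u1 := not_lt.1 hc
    have hq : 2 * R / e < L := by
      rw [div_lt_iff₀ hepos]
      linarith
    obtain ⟨T, hT1, hT2⟩ := exists_between hq
    have hT0 : 0 < T := lt_trans (by positivity) hT1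
    have hT3 : 2 * R < e * T := by
      rw [div_lt_iff₀ hepos] at hT1
      linarith
    -- times u1' = max u1 (-T), u2' = u1' + T
    obtain ⟨v1, hv1⟩ : ∃ v1, v1 = max u1 (-T) := ⟨_, rfl⟩
    have hv1a : u1 ≤ v1 := hv1 ▸ le_max_left _ _
    have hv1b : -T ≤ v1 := hv1 ▸ le_max_right _ _
    have hv1c : v1 ≤ 0 := by rw [hv1]; exact max_le hu1 (by linarith)
    have hv2 : v1 + T ≤ u2 := by
      rcases max_choice u1 (-T) with h | h
      · rw [hv1, h]; linarith
      · rw [hv1, h]; linarith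
    have h5 := hB v1 (v1 + T) hv1c (by linarith) (fun s hs hs' => hst s (by linarith) (by linarith))
      (by linarith)
    have h6 : sp 𝒢 z * (v1 + T - v1) = sp 𝒢 z * T := by ring
    rw [h6] at h5
    have h7 : e * T < sp 𝒢 z * T := mul_lt_mul_of_pos_right hze hT0
    linarith
  have hD : ∀ u1 u2, u1 ≤ 0 → 0 ≤ u2 → (∀ s, u1 ≤ s → s ≤ u2 → ‖(Φ s z).1‖ < R) →
      sp 𝒢 z * (u2 - u1) < 2 * R := fun u1 u2 hu1 hu2 hst =>
    hB u1 u2 hu1 hu2 hst (hC u1 u2 hu1 hu2 hst)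
  have hL0 : 0 < L := by
    by_contra hc
    have : e * L ≤ 0 := mul_nonpos_of_nonneg_of_nonpos hepos.le (not_lt.1 hc)
    linarith
  have hneP : ∃ u, 0 ≤ u ∧ R ≤ ‖(Φ u z).1‖ := by
    by_contra hc
    push Not at hc
    have := hC 0 L le_rfl hL0.le fun s hs _ => hc s hs
    linarith
  have hneN : ∃ u, 0 ≤ u ∧ R ≤ ‖(Φ (-u) z).1‖ := by
    by_contra hc
    push Not at hc
    have := hC (-L) 0 (by linarith) le_rfl fun s _ hs => by
      have h := hc (-s) (by linarith)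
      rwa [neg_neg] at h
    linarith
  obtain ⟨β, hβ0, hβR, hβ⟩ := IWN_exit (fun u => ‖(Φ u z).1‖) hg R h0 hneP
  obtain ⟨α', hα0, hαR, hα⟩ := IWN_exit (fun u => ‖(Φ (-u) z).1‖) (hg.comp continuous_neg) R
    (by rw [neg_zero]; exact h0) hneN
  have hin : ∀ s, -α' < s → s < β → ‖(Φ s z).1‖ < R := by
    intro s hs1 hs2
    rcases le_total 0 s with h | h
    · exact hβ s h hs2
    · have h3 := hα (-s) (by linarith) (by linarith)
      have h4 : ‖(Φ (- -s) z).1‖ < R := h3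
      rwa [neg_neg] at h4
  have hle : ∀ s, -α' ≤ s → s ≤ β → ‖(Φ s z).1‖ ≤ R := by
    intro s hs1 hs2
    rcases lt_or_eq_of_le hs1 with h | h
    · rcases lt_or_eq_of_le hs2 with h' | h'
      · exact (hin s h h').le
      · rw [h']; exact le_of_eq hβR
    · rw [← h]; exact le_of_eq hαR
  have hbound : sp 𝒢 z * (β - -α') ≤ 2 * R := by
    by_contra hc
    have hc' : 2 * R < sp 𝒢 z * (β - -α') := not_le.1 hc
    have hspos : 0 < sp 𝒢 z := lt_trans hepos hze
    obtain ⟨ε, hε⟩ : ∃ ε, ε = min (min (β / 2) (α' / 2))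
        ((sp 𝒢 z * (β - -α') - 2 * R) / (2 * sp 𝒢 z)) := ⟨_, rfl⟩
    have hε0 : 0 < ε := by
      rw [hε]
      refine lt_min (lt_min (by linarith) (by linarith)) (div_pos (by linarith) (by linarith))
    have hε1 : ε ≤ β / 2 := by rw [hε]; exact (min_le_left _ _).trans (min_le_left _ _)
    have hε2 : ε ≤ α' / 2 := by rw [hε]; exact (min_le_left _ _).trans (min_le_right _ _)
    have hε3 : ε * (2 * sp 𝒢 z) ≤ sp 𝒢 z * (β - -α') - 2 * R := by
      have h : ε ≤ (sp 𝒢 z * (β - -α') - 2 * R) / (2 * sp 𝒢 z) := by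
        rw [hε]; exact min_le_right _ _
      rwa [le_div_iff₀ (by linarith)] at h
    have h5 := hD (-α' + ε) (β - ε) (by linarith) (by linarith)
      (fun s hs hs' => hin s (by linarith) (by linarith))
    have h6 : sp 𝒢 z * (β - ε - (-α' + ε)) = sp 𝒢 z * (β - -α') - ε * (2 * sp 𝒢 z) := by ring
    rw [h6] at h5
    linarith
  refine ⟨-α', β, by linarith, hβ0, ?_, hbound, ?_, hαR, hβR, ?_⟩
  · intro u
    constructor
    · intro hu
      constructor
      · by_contra hc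
        have h3 : ‖(Φ (-α') z).1‖ < R := hu (-α') (by
          rw [mem_uIcc]
          right
          constructor <;> linarith)
        have h4 : ‖(Φ (-α') z).1‖ = R := hαR
        linarith
      · by_contra hc
        have h3 : ‖(Φ β z).1‖ < R := hu β (by
          rw [mem_uIcc]
          left
          constructor <;> linarith)
        have h4 : ‖(Φ β z).1‖ = R := hβR
        linarith
    · intro hu s hs
      rw [mem_uIcc] at hs
      rcases hs with hs | hs
      · exact hin s (by linarith [hs.1]) (by linarith [hs.2, hu.2])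
      · exact hin s (by linarith [hs.1, hu.1]) (by linarith [hs.2])
  · have h3 : e * (β - -α') < sp 𝒢 z * (β - -α') := mul_lt_mul_of_pos_right hze (by linarith)
    have h4 : e * (β - -α') < e * L := by linarith
    exact lt_of_mul_lt_mul_left h4 hepos.le
  · intro u hu
    refine ⟨hle u hu.1 hu.2, hnr u fun s hs => ?_⟩
    rw [mem_uIcc] at hs
    rcases hs with hs | hs
    · exact hle s (by linarith [hs.1]) (by linarith [hs.2, hu.2])
    · exact hle s (by linarith [hs.1, hu.1]) (by linarith [hs.2])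

end Pool.Agent.CRO
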